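import Mathlib

set_option autoImplicit false

open Topology Set TopologicalSpace Filter

namespace Pool.Agent.Hhelper59

universe u v

/-- The set `B₁(M)` of all Baire-one functions `M → ℝ`: pointwise limits of sequences of continuous
real functions on `M`. -/
def BaireOne (M : Type u) [TopologicalSpace M] : Set (M → ℝ) :=
  {f | ∃ F : ℕ → M → ℝ, (∀ n, Continuous (F n)) ∧
    ∀ x, Tendsto (fun n => F n x) atTop (𝓝 (f x))}

/-- `K` is a Rosenthal compact: `K` is compact and homeomorphic to a subspace of `B₁(M)`, where `M` is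
Polish and `B₁(M)` has the topology of pointwise convergence (the product topology on `M → ℝ`). -/
def IsRosenthalCompact (K : Type u) [TopologicalSpace K] : Prop :=
  CompactSpace K ∧ ∃ (M : Type) (_ : TopologicalSpace M) (_ : PolishSpace M) (e : K → (M → ℝ)),
    IsEmbedding e ∧ range e ⊆ BaireOne M

section Defs

variable (X : Type u) (Y : Type v) [TopologicalSpace X] [TopologicalSpace Y]

/-- The set `S(X × Y)` of separately continuous real functions on `X × Y`, as a type. -/
def SepCont : Type (max u v) :=
  {s : X × Y → ℝ // (∀ y, Continuous fun x => s (x, y)) ∧ ∀ x, Continuous fun y => s (x, y)}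

variable {X Y}

/-- The cross of `p = (a, b)`: the set `({a} × Y) ∪ (X × {b})`. -/
def cross (p : X × Y) : Set (X × Y) := ({p.1} ×ˢ univ) ∪ (univ ×ˢ {p.2})

variable (X Y)

/-- The cross-open topology on `S(X × Y)`: generated by the sets `{s | s(A) ⊆ W}` where `W ⊆ ℝ` is open
and `A = closure G ∩ C`, with `C` a cross and `G = U ∩ C` an open subset of `C`. -/
@[instance_reducible]
def crossOpen : TopologicalSpace (SepCont X Y) :=
  generateFrom {O | ∃ (p : X × Y) (U : Set (X × Y)) (W : Set ℝ), IsOpen U ∧ IsOpen W ∧
    O = {s : SepCont X Y | s.1 '' (closure (U ∩ cross p) ∩ cross p) ⊆ W}}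

/-- The cross-uniform topology on `S(X × Y)`: a set `O` is open iff for each `s ∈ O` it contains a finite
intersection of sets `{t | ∀ q ∈ cross p, |s q - t q| < ε}`, `p ∈ X × Y`, `ε > 0`. -/
@[instance_reducible]
def crossUniform : TopologicalSpace (SepCont X Y) :=
  TopologicalSpace.mkOfNhds fun s =>
    ⨅ (p : X × Y) (ε : ℝ) (_ : 0 < ε), 𝓟 {t : SepCont X Y | ∀ q ∈ cross p, |s.1 q - t.1 q| < ε}

end Defs

variable {X : Type u} {Y : Type v} [TopologicalSpace X] [TopologicalSpace Y]

/-- A compact space embedded in `S(X × Y)` with `X`, `Y` separable, for a topology which makes all the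
evaluations continuous, is second countable. -/
theorem secondCountable_of_embedding [SeparableSpace X] [SeparableSpace Y]
    {K : Type*} [TopologicalSpace K] [CompactSpace K]
    (τ : TopologicalSpace (SepCont X Y))
    (hτ : ∀ q : X × Y, @Continuous _ _ τ _ fun s : SepCont X Y => s.1 q)
    (e : K → SepCont X Y) (he : @IsEmbedding _ _ _ τ e) : SecondCountableTopology K := by
  rcases isEmpty_or_nonempty (X × Y) with hE | hN
  · -- then `SepCont X Y` has one point
    have hinj : Function.Injective e := he.injective
    have : Subsingleton K := ⟨fun a b => hinj (Subtype.ext (funext fun q => (hE.false q).elim))⟩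
    infer_instance
  · obtain ⟨⟨x0, y0⟩⟩ := hN
    have : Nonempty X := ⟨x0⟩
    have : Nonempty Y := ⟨y0⟩
    let Φ : K → (ℕ × ℕ → ℝ) := fun k n => (e k).1 (denseSeq X n.1, denseSeq Y n.2)
    have hΦc : Continuous Φ := by
      refine continuous_pi fun n => ?_
      exact (hτ (denseSeq X n.1, denseSeq Y n.2)).comp he.continuous
    have hΦi : Function.Injective Φ := by
      intro a b hab
      apply he.injective
      apply Subtype.ext
      have h1 : ∀ m, ∀ y, (e a).1 (denseSeq X m, y) = (e b).1 (denseSeq X m, y) := by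
        intro m
        have := DenseRange.equalizer (denseRange_denseSeq Y) ((e a).2.2 (denseSeq X m))
          ((e b).2.2 (denseSeq X m)) (by
            funext n
            exact congrFun hab (m, n))
        exact fun y => congrFun this y
      have h2 : ∀ y x, (e a).1 (x, y) = (e b).1 (x, y) := by
        intro y
        have := DenseRange.equalizer (denseRange_denseSeq X) ((e a).2.1 y)
          ((e b).2.1 y) (by
            funext m
            exact h1 m y)
        exact fun x => congrFun this x
      funext q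
      exact h2 q.2 q.1
    have hemb : IsEmbedding Φ := (hΦc.isClosedEmbedding hΦi).isEmbedding
    exact hemb.secondCountableTopology

/-- The evaluations are continuous for the cross-open topology. -/
theorem continuous_eval_crossOpen (q : X × Y) :
    @Continuous _ _ (crossOpen X Y) _ fun s : SepCont X Y => s.1 q := by
  let _ := crossOpen X Y
  rw [continuous_iff_continuousAt]
  intro s W' hW'
  obtain ⟨W, hWW', hWo, hWs⟩ := mem_nhds_iff.1 hW'
  have hW : W ∈ 𝓝 (s.1 q) := hWo.mem_nhds hWs
  -- choose a closed neighbourhood `V` of `s q` inside `W`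
  obtain ⟨V, hV, hVc, hVW⟩ := exists_mem_nhds_isClosed_subset hW
  have hs1 : Continuous fun x => s.1 (x, q.2) := s.2.1 q.2
  have hs2 : Continuous fun y => s.1 (q.1, y) := s.2.2 q.1
  let U1 : Set X := {x | s.1 (x, q.2) ∈ interior V}
  let U2 : Set Y := {y | s.1 (q.1, y) ∈ interior V}
  have hU1 : IsOpen U1 := isOpen_interior.preimage hs1
  have hU2 : IsOpen U2 := isOpen_interior.preimage hs2
  have hq : s.1 q ∈ interior V := mem_interior_iff_mem_nhds.2 hV
  let U : Set (X × Y) := U1 ×ˢ U2
  have hU : IsOpen U := hU1.prod hU2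
  let A : Set (X × Y) := closure (U ∩ cross q) ∩ cross q
  have hqU : q ∈ U := ⟨by simpa [U1] using hq, by simpa [U2] using hq⟩
  have hqc : q ∈ cross q := by simp [cross]
  have hqA : q ∈ A := ⟨subset_closure ⟨hqU, hqc⟩, hqc⟩
  -- `s` maps `A` into `W`
  have hsA : ∀ r ∈ A, s.1 r ∈ W := by
    rintro ⟨x, y⟩ ⟨hr, hrc⟩
    apply hVW
    have hcl : (x, y) ∈ closure U1 ×ˢ closure U2 := by
      rw [← closure_prod_eq]
      exact closure_mono inter_subset_left hr
    have hcl1 : ∀ x', x' ∈ closure U1 → s.1 (x', q.2) ∈ V := by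
      intro x' hx'
      have : closure U1 ⊆ (fun x => s.1 (x, q.2)) ⁻¹' V := by
        apply closure_minimal _ (hVc.preimage hs1)
        intro z hz
        have hz' : s.1 (z, q.2) ∈ interior V := hz
        have hz'' : s.1 (z, q.2) ∈ V := interior_subset hz'
        exact hz''
      exact this hx'
    have hcl2 : ∀ y', y' ∈ closure U2 → s.1 (q.1, y') ∈ V := by
      intro y' hy'
      have : closure U2 ⊆ (fun y => s.1 (q.1, y)) ⁻¹' V := by
        apply closure_minimal _ (hVc.preimage hs2)
        intro z hz
        have hz' : s.1 (q.1, z) ∈ interior V := hz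
        have hz'' : s.1 (q.1, z) ∈ V := interior_subset hz'
        exact hz''
      exact this hy'
    rcases hrc with h | h
    · have hx : x = q.1 := by simpa using h
      subst hx
      exact hcl2 y hcl.2
    · have hy : y = q.2 := by simpa using h
      subst hy
      exact hcl1 x hcl.1
  rw [mem_map]
  refine mem_of_superset (IsOpen.mem_nhds (isOpen_generateFrom_of_mem ⟨q, U, W, hU, hWo, rfl⟩) ?_) ?_
  · rintro _ ⟨r, hr, rfl⟩
    exact hsA r hr
  · intro t ht
    exact hWW' (ht ⟨q, hqA, rfl⟩)

/-- The evaluations are continuous for the cross-uniform topology. -/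
theorem continuous_eval_crossUniform (q : X × Y) :
    @Continuous _ _ (crossUniform X Y) _ fun s : SepCont X Y => s.1 q := by
  let _ := crossUniform X Y
  rw [continuous_def]
  intro W hW s hs
  obtain ⟨ε, hε, hball⟩ := Metric.isOpen_iff.1 hW _ hs
  have h1 : {t : SepCont X Y | ∀ r ∈ cross q, |s.1 r - t.1 r| < ε} ∈
      (⨅ (p : X × Y) (ε : ℝ) (_ : 0 < ε),
        𝓟 {t : SepCont X Y | ∀ r ∈ cross p, |s.1 r - t.1 r| < ε}) := by
    refine mem_iInf_of_mem q (mem_iInf_of_mem ε (mem_iInf_of_mem hε (mem_principal_self _)))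
  refine mem_of_superset h1 ?_
  intro t ht
  apply hball
  have hqc : q ∈ cross q := by simp [cross]
  have := ht q hqc
  rw [Metric.mem_ball, dist_comm, Real.dist_eq]
  exact this

/-- Neighbourhoods in the cross-uniform topology are as they should be: the sets
`{t | ∀ q ∈ cross p, |s q - t q| < ε}` form a subbase of the neighbourhood filter at `s`. -/
theorem nhds_crossUniform (s : SepCont X Y) :
    @nhds _ (crossUniform X Y) s =
      ⨅ (p : X × Y) (ε : ℝ) (_ : 0 < ε), 𝓟 {t : SepCont X Y | ∀ q ∈ cross p, |s.1 q - t.1 q| < ε} := by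
  set n : SepCont X Y → Filter (SepCont X Y) := fun s =>
    ⨅ (p : X × Y) (ε : ℝ) (_ : 0 < ε), 𝓟 {t : SepCont X Y | ∀ q ∈ cross p, |s.1 q - t.1 q| < ε} with hn
  have hmem : ∀ (s : SepCont X Y) (p : X × Y) (ε : ℝ), 0 < ε →
      {t : SepCont X Y | ∀ q ∈ cross p, |s.1 q - t.1 q| < ε} ∈ n s := fun s p ε hε =>
    mem_iInf_of_mem p (mem_iInf_of_mem ε (mem_iInf_of_mem hε (mem_principal_self _)))
  refine TopologicalSpace.nhds_mkOfNhds n _ ?_ ?_
  · intro a
    simp only [hn, le_iInf_iff]
    intro p ε hε
    rw [le_principal_iff, mem_pure]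
    intro q _
    simpa using hε
  · intro a S hS
    have hle : (n a).bind n ≤ n a := by
      refine le_iInf fun p => le_iInf fun ε => le_iInf fun hε => le_principal_iff.2 ?_
      rw [mem_bind']
      refine mem_of_superset (hmem a p (ε / 2) (half_pos hε)) ?_
      intro y hy
      refine mem_of_superset (hmem y p (ε / 2) (half_pos hε)) ?_
      intro t ht q hq
      calc |a.1 q - t.1 q| ≤ |a.1 q - y.1 q| + |y.1 q - t.1 q| := abs_sub_le _ _ _
        _ < ε / 2 + ε / 2 := add_lt_add (hy q hq) (ht q hq)
        _ = ε := by ring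
    exact mem_bind'.1 (hle hS)

/-- The compact space `A(𝔠)` as the set of all indicator functions of subsets of `ℝ` with at most one
element, with the topology of pointwise convergence. -/
def AC : Set (ℝ → ℝ) := {f | (∀ x, f x = 0 ∨ f x = 1) ∧ ∀ x y, x ≠ y → f x * f y = 0}

theorem isCompact_AC : IsCompact AC := by
  have h1 : IsCompact (Set.pi univ fun _ : ℝ => ({0, 1} : Set ℝ)) :=
    isCompact_univ_pi fun _ => (Set.toFinite _).isCompact
  refine h1.of_isClosed_subset ?_ ?_
  · have : AC = (⋂ x : ℝ, {f : ℝ → ℝ | f x ∈ ({0, 1} : Set ℝ)}) ∩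
        ⋂ (x : ℝ) (y : ℝ) (_ : x ≠ y), {f : ℝ → ℝ | f x * f y = 0} := by
      ext f
      simp [AC]
    rw [this]
    refine IsClosed.inter (isClosed_iInter fun x => ?_) (isClosed_iInter fun x =>
      isClosed_iInter fun y => isClosed_iInter fun _ => ?_)
    · exact (Set.toFinite ({0, 1} : Set ℝ)).isClosed.preimage (continuous_apply x)
    · exact isClosed_eq ((continuous_apply x).mul (continuous_apply y)) continuous_const
  · intro f hf x _
    simpa using hf.1 x

theorem AC_subset_baireOne : AC ⊆ BaireOne ℝ := by
  intro f hf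
  by_cases h : ∃ a, f a = 1
  · obtain ⟨a, ha⟩ := h
    have hz : ∀ x, x ≠ a → f x = 0 := by
      intro x hx
      have := hf.2 x a hx
      rw [ha, mul_one] at this
      exact this
    refine ⟨fun n x => max 0 (1 - n * |x - a|), fun n => by fun_prop, fun x => ?_⟩
    by_cases hx : x = a
    · subst hx
      simp [ha]
    · rw [hz x hx]
      have hpos : 0 < |x - a| := abs_pos.2 (sub_ne_zero.2 hx)
      obtain ⟨N, hN⟩ := exists_nat_gt (1 / |x - a|)
      refine tendsto_const_nhds.congr' ?_
      filter_upwards [eventually_ge_atTop N] with n hn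
      have h1 : (1 : ℝ) ≤ n * |x - a| := by
        have h2 : 1 / |x - a| < n := lt_of_lt_of_le hN (by exact_mod_cast hn)
        rw [div_lt_iff₀ hpos] at h2
        exact h2.le
      rw [max_eq_left (by linarith)]
  · have hz : ∀ x, f x = 0 := by
      intro x
      rcases hf.1 x with h0 | h1
      · exact h0
      · exact (h ⟨x, h1⟩).elim
    exact ⟨fun _ _ => 0, fun _ => continuous_const, fun x => by rw [hz x]; exact tendsto_const_nhds⟩

theorem isRosenthalCompact_AC : IsRosenthalCompact AC :=
  ⟨isCompact_iff_compactSpace.1 isCompact_AC, ℝ, inferInstance, inferInstance, Subtype.val,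
    IsEmbedding.subtypeVal, by rw [Subtype.range_coe]; exact AC_subset_baireOne⟩

theorem not_secondCountable_AC : ¬ SecondCountableTopology AC := by
  intro h
  have hsep : SeparableSpace AC := inferInstance
  -- the open sets `{f | 1 / 2 < f a}` are nonempty and pairwise disjoint
  let U : ℝ → Set AC := fun a => {f | 1 / 2 < f.1 a}
  have hU : ∀ a, IsOpen (U a) := fun a =>
    isOpen_lt continuous_const ((continuous_apply a).comp continuous_subtype_val)
  have hne : ∀ a, (U a).Nonempty := by
    intro a
    refine ⟨⟨fun x => if x = a then 1 else 0, ⟨fun x => ?_, fun x y hxy => ?_⟩⟩, ?_⟩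
    · by_cases hx : x = a
      · simp [hx]
      · simp [hx]
    · by_cases hx : x = a
      · have hy : y ≠ a := fun hy => hxy (hx.trans hy.symm)
        simp [hy]
      · simp [hx]
    · show (1 / 2 : ℝ) < if a = a then 1 else 0
      norm_num
  have hdisj : (univ : Set ℝ).PairwiseDisjoint U := by
    intro a _ b _ hab
    refine Set.disjoint_left.2 fun f hfa hfb => ?_
    have hfa' : (1 / 2 : ℝ) < f.1 a := hfa
    have hfb' : (1 / 2 : ℝ) < f.1 b := hfb
    have := f.2.2 a b hab
    have h1 : 0 < f.1 a * f.1 b := mul_pos (by linarith) (by linarith)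
    linarith
  have hc : (univ : Set ℝ).Countable :=
    hdisj.countable_of_isOpen (fun a _ => hU a) (fun a _ => hne a)
  exact Cardinal.not_countable_real hc

end Pool.Agent.Hhelper59
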